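import Pool.Agent.Lib.MP_d2b992_gt.Curve
import Pool.Agent.Lib.MP_d2b992_gt.Erg.CurvF

/-!
# Positively curved two-spheres with an everywhere dense geodesic

Part (c) of the question has a positive answer: for every `ε > 0` there is a smooth Riemannian 
metric on the two-sphere with curvature in `(1 - ε, 1 + ε)` (and positive) such that through every
point of the sphere there is a geodesic with dense image.

Idea: inside the round sphere take the two-parameter family of oriented great circles whose poles 
lie on the curve `latitude = 1/8 + (1/4) cos (3 longitude)`. This curve is disjoint from its 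
antipodal image and meets every great circle, so the great circles of the family cover the sphere.
The metric is changed near the equator, invariantly under the antipodal map, so that the torus of 
unit vectors tangent to the family stays invariant and its flow becomes a scalar time periodic
equation whose return map moves every point in the positive direction. For suitable arbitrarily
small values of the parameter the rotation number is irrational and by the theorem of Denjoy every
orbit is dense in the torus.
-/

namespace Pool.Agent.Results.MP_d2b992_gt.DenseGeodesic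

open Set
open Pool.Agent.Lib.MP_d2b992_gt

theorem result (ε : ℝ) (hε : 0 < ε) : ∃ M : SphereMetric, M.PositiveCurvature ∧ 
    (∀ s, (s = 1 ∨ s = -1) → ∀ p, |M.curvature s p - 1| < ε) ∧
    ∀ x : R3, ‖x‖ = 1 → ∃ γ : ℝ → R3, M.IsGeodesic γ ∧ γ 0 = x ∧ EverywhereDense γ := by
  obtain ⟨τ0, hτ0, hcurv⟩ := curvature_close (lt_min hε one_pos)
  obtain ⟨τ, hτ, hd⟩ := exists_dense_curve hτ0
  have hc := hcurv τ hτ
  refine ⟨MM τ, ?_, ?_, ?_⟩
  · intro s hs p
    have h1 := (abs_lt.1 (hc s hs p)).1
    have h2 := min_le_right ε 1
    linarith
  · intro s hs p
    exact (hc s hs p).trans_le (min_le_left ε 1)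
  · intro x hx
    obtain ⟨p, q, hsol, h0, hdense⟩ := hd x hx
    refine ⟨fun s => xx (p s) (q s), ⟨hsol.smooth, fun t => norm_xx _ _, hsol.unit, hsol.el⟩, 
      h0, ?_⟩
    intro y hy
    rw [mem_sphere_zero_iff_norm] at hy
    rw [Metric.mem_closure_range_iff]
    intro δ hδ
    obtain ⟨s, hs⟩ := hdense y hy δ hδ
    refine ⟨s, ?_⟩
    rw [dist_comm, dist_eq_norm]
    exact hs

end Pool.Agent.Results.MP_d2b992_gt.DenseGeodesic
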