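import Pool.Agent.Lib.MP_d2b992_gt.Erg.All

/-!
# A positively curved two-sphere with ergodic geodesic flow

Part (a) of the question has a positive answer, so that the question is answered: there is a smooth
Riemannian metric of positive curvature on the two-sphere whose geodesic flow is ergodic.

Construction. The double cover of a round hemisphere, branched at its centre `p`, has a boundary of
length `4 π`, which is glued to itself by a reflection. This gives a sphere with a round metric with
three cone points: `p`, with angle `4 π`, and `q₁`, `q₂`, with angle `π`. Discs around the cone 
points are replaced by smooth caps of revolution of positive curvature. Outside of the caps the 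
geodesics are great circles. Passing the first cap rotates the great circle around the axis `p` by
an angle which depends on Clairaut's constant `c`, passing one of the other caps rotates it around
the axis `q` by an angle which depends on Clairaut's constant `x`. For suitable caps both twists 
satisfy an inequality which gives an invariant field of cones for the return map; this map is 
ergodic by the argument of Hopf.
-/

namespace Pool.Agent.Results.MP_d2b992_gt.ErgodicFlow

open MeasureTheory
open Pool.Agent.Lib.MP_d2b992_gt Pool.Agent.Lib.MP_d2b992_gt.Erg

theorem result : ∃ M : SphereMetric, M.PositiveCurvature ∧ 
    (∀ z ∈ UM M, ∃! γ : ℝ → R3, M.IsGeodesic γ ∧ γ 0 = z.1 ∧ deriv γ 0 = z.2) ∧ 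
    IsProbabilityMeasure (mu M) ∧ IsErgodic M := by
  obtain ⟨C, F, G, hD, hT⟩ := exists_caps
  exact ⟨C.metric, positiveCurvature C, fun z hz => existsUnique_geodesic C hz, isProb C, 
    ergodic_of hD hT⟩

end Pool.Agent.Results.MP_d2b992_gt.ErgodicFlow
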